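import Pool.Agent.X175.Cactus.Defs
import Pool.Agent.W367.SN.Wr

set_option autoImplicit false

namespace Pool.Agent.X175.Cactus
open Pool.Agent.W367.SN

/-! ### the permutation representation -/

/-- the reversal of the interval `[p, q]` -/
def rev (p q : ℕ) : Equiv.Perm ℕ where
  toFun i := if p ≤ i ∧ i ≤ q then p + q - i else i
  invFun i := if p ≤ i ∧ i ≤ q then p + q - i else i
  left_inv i := by
    by_cases h : p ≤ i ∧ i ≤ q
    · simp only [if_pos h]
      rw [if_pos (by omega)]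
      omega
    · simp only [if_neg h]
  right_inv i := by
    by_cases h : p ≤ i ∧ i ≤ q
    · simp only [if_pos h]
      rw [if_pos (by omega)]
      omega
    · simp only [if_neg h]

theorem rev_apply (p q i : ℕ) : rev p q i = if p ≤ i ∧ i ≤ q then p + q - i else i := rfl

/-- the hom to the permutations of the natural numbers -/
def toPerm (n : ℕ) : J n →* Equiv.Perm ℕ :=
  PresentedGroup.toGroup (f := fun x : Gen n => rev x.1.1 x.1.2) (by
    rintro w (⟨x, rfl⟩ | ⟨x, y, h, rfl⟩ | ⟨x, y, z, h1, h2, h3, rfl⟩)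
    · rw [map_mul, FreeGroup.lift_apply_of]
      ext i
      simp only [Equiv.Perm.mul_apply, Equiv.Perm.one_apply]
      exact (rev x.1.1 x.1.2).left_inv i
    · rw [map_mul, map_inv, map_mul, map_mul, mul_inv_eq_one, FreeGroup.lift_apply_of,
        FreeGroup.lift_apply_of]
      ext i
      simp only [Equiv.Perm.mul_apply, rev_apply]
      split_ifs <;> omega
    · rw [map_mul, map_inv, map_mul, map_mul, mul_inv_eq_one, FreeGroup.lift_apply_of,
        FreeGroup.lift_apply_of, FreeGroup.lift_apply_of]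
      obtain ⟨⟨p, q⟩, hx⟩ := x
      obtain ⟨⟨m, r⟩, hy⟩ := y
      obtain ⟨⟨u, v⟩, hz⟩ := z
      simp only [Prod.mk.injEq] at h1 h2 h3 hx hy hz ⊢
      obtain ⟨rfl, rfl⟩ := h3
      ext i
      simp only [Equiv.Perm.mul_apply, rev_apply]
      split_ifs <;> omega)

/-- the generator `s_{p,q}` of `J_10` -/
def s (p q : ℕ) (h : 1 ≤ p ∧ p < q ∧ q ≤ 10) : J 10 := PresentedGroup.of ⟨(p, q), h⟩

theorem toPerm_s (p q : ℕ) (h : 1 ≤ p ∧ p < q ∧ q ≤ 10) : toPerm 10 (s p q h) = rev p q :=
  PresentedGroup.toGroup.of _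

theorem s_sq (p q : ℕ) (h : 1 ≤ p ∧ p < q ∧ q ≤ 10) : s p q h * s p q h = 1 := by
  have := PresentedGroup.one_of_mem (rels := rels 10) (x := FreeGroup.of ⟨(p, q), h⟩ *
    FreeGroup.of ⟨(p, q), h⟩) (Or.inl ⟨_, rfl⟩)
  rwa [map_mul] at this

theorem s_comm {p q m r : ℕ} (h : 1 ≤ p ∧ p < q ∧ q ≤ 10) (h' : 1 ≤ m ∧ m < r ∧ r ≤ 10)
    (hd : q < m ∨ r < p) : Commute (s p q h) (s m r h') := by
  have := PresentedGroup.one_of_mem (rels := rels 10) (x := FreeGroup.of ⟨(p, q), h⟩ *
    FreeGroup.of ⟨(m, r), h'⟩ * (FreeGroup.of ⟨(m, r), h'⟩ * FreeGroup.of ⟨(p, q), h⟩)⁻¹)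
    (Or.inr (Or.inl ⟨_, _, hd, rfl⟩))
  rw [map_mul, map_inv, map_mul, map_mul, mul_inv_eq_one] at this
  exact this

theorem s_conj {p q m r : ℕ} (h : 1 ≤ p ∧ p < q ∧ q ≤ 10) (h' : 1 ≤ m ∧ m < r ∧ r ≤ 10)
    (h1 : p ≤ m) (h2 : r ≤ q) : s p q h * s m r h' * s p q h =
      s (p + q - r) (p + q - m) (by omega) := by
  have := PresentedGroup.one_of_mem (rels := rels 10) (x := FreeGroup.of ⟨(p, q), h⟩ *
    FreeGroup.of ⟨(m, r), h'⟩ * (FreeGroup.of ⟨(p + q - r, p + q - m), by omega⟩ *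
      FreeGroup.of ⟨(p, q), h⟩)⁻¹)
    (Or.inr (Or.inr ⟨_, _, _, h1, h2, rfl, rfl⟩))
  rw [map_mul, map_inv, map_mul, map_mul, mul_inv_eq_one] at this
  change s p q h * s m r h' = s (p + q - r) (p + q - m) _ * s p q h at this
  rw [this, mul_assoc, s_sq, mul_one]

/-! ### lifting to wreath products -/

/-- the universal property of the wreath product -/
def wrLift {M Γ : Type} [Group M] [Group Γ] (f : M →* Γ) (τ : Γ) (hτ : τ * τ = 1)
    (hc : ∀ a b, Commute (f a) (τ * f b * τ)) : Wr M →* Γ where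
  toFun w := f w.a * (τ * f w.b * τ) * (if w.e then τ else 1)
  map_one' := by
    change f 1 * (τ * f 1 * τ) * (if false then τ else 1) = 1
    simp [hτ]
  map_mul' := by
    have c1 : ∀ x : Γ, τ * (τ * x) = x := fun x => by rw [← mul_assoc, hτ, one_mul]
    have c2 : ∀ a b : M, ∀ x : Γ, τ * (f b * (τ * (f a * x))) = f a * (τ * (f b * (τ * x))) := by
      intro a b x
      have := (hc a b).eq
      calc τ * (f b * (τ * (f a * x))) = (τ * f b * τ * f a) * x := by simp only [mul_assoc]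
        _ = (f a * (τ * f b * τ)) * x := by rw [this]
        _ = _ := by simp only [mul_assoc]
    rintro ⟨a, b, e⟩ ⟨c, d, g⟩
    cases e <;> cases g
    · simp only [Wr.mul_ff, map_mul, Bool.false_eq_true, if_false, mul_one, mul_assoc]
      rw [c2, c1]
    · simp only [Wr.mul_ff, map_mul, Bool.false_eq_true, if_false, if_true, one_mul, mul_assoc]
      rw [c2, c1]
    · have key := c2 d (b * c) τ
      simp only [map_mul, mul_assoc] at key
      simp only [Wr.mul_tt, map_mul, Bool.false_eq_true, if_false, if_true, mul_one, mul_assoc,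
        Bool.not_false, c1]
      rw [key]
    · have key := c2 d (b * c) 1
      simp only [map_mul, mul_assoc, mul_one] at key
      simp only [Wr.mul_tt, map_mul, Bool.false_eq_true, if_false, if_true, mul_one, mul_assoc,
        Bool.not_true, hτ]
      rw [key]

end Pool.Agent.X175.Cactus
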