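import Pool.Agent.X175.Cactus.A

set_option autoImplicit false

namespace Pool.Agent.X175.Cactus
open Pool.Agent.W367.SN

/-- the hom from `C2` given by an involution -/
def ofInv {Γ : Type} [Group Γ] (t : Γ) (h : t * t = 1) : C2 →* Γ where
  toFun e := if e = 1 then 1 else t
  map_one' := if_pos rfl
  map_mul' := by
    have key : ∀ e : C2, e = 1 ∨ e = Multiplicative.ofAdd 1 := by decide
    have h1 : (Multiplicative.ofAdd 1 : C2) ≠ 1 := by decide
    have h3 : (Multiplicative.ofAdd 1 * Multiplicative.ofAdd 1 : C2) = 1 := by decide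
    intro a b
    rcases key a with rfl | rfl <;> rcases key b with rfl | rfl
    · simp
    · rw [one_mul, if_pos rfl, if_neg h1, one_mul]
    · rw [mul_one, if_pos rfl, if_neg h1, mul_one]
    · rw [h3, if_pos rfl, if_neg h1, h]

theorem ofInv_apply {Γ : Type} [Group Γ] (t : Γ) (h : t * t = 1) (e : C2) :
    ofInv t h e = if e = 1 then 1 else t := rfl

theorem comm_closure {Γ : Type} [Group Γ] {S T : Set Γ} (h : ∀ s ∈ S, ∀ t ∈ T, Commute s t) :
    ∀ u ∈ Subgroup.closure S, ∀ v ∈ Subgroup.closure T, Commute u v := by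
  have h1 : Subgroup.closure S ≤ Subgroup.centralizer T := by
    rw [Subgroup.closure_le]
    intro s hs
    change s ∈ Subgroup.centralizer T
    rw [Subgroup.mem_centralizer_iff]
    intro t ht
    exact (h s hs t ht).eq.symm
  intro u hu v hv
  have h2 : Subgroup.closure T ≤ Subgroup.centralizer {u} := by
    rw [Subgroup.closure_le]
    intro t ht
    change t ∈ Subgroup.centralizer {u}
    rw [Subgroup.mem_centralizer_iff]
    rintro _ rfl
    exact ((Subgroup.mem_centralizer_iff.1 (h1 hu)) t ht).symm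
  exact (Subgroup.mem_centralizer_iff.1 (h2 hv)) u rfl

theorem conj_closure {Γ : Type} [Group Γ] {S T : Set Γ} {τ : Γ} (hτ : τ * τ = 1)
    (h : ∀ s ∈ S, τ * s * τ ∈ Subgroup.closure T) :
    ∀ v ∈ Subgroup.closure S, τ * v * τ ∈ Subgroup.closure T := by
  intro v hv
  have hτ' : τ⁻¹ = τ := inv_eq_of_mul_eq_one_left hτ
  have h1 : Subgroup.closure S ≤ (Subgroup.closure T).comap (MulAut.conj τ).toMonoidHom := by
    rw [Subgroup.closure_le]
    intro s hs
    change τ * s * τ⁻¹ ∈ Subgroup.closure T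
    rw [hτ']; exact h s hs
  have h2 : τ * v * τ⁻¹ ∈ Subgroup.closure T := h1 hv
  rwa [hτ'] at h2

abbrev a12 : J 10 := s 1 2 (by norm_num)
abbrev a34 : J 10 := s 3 4 (by norm_num)
abbrev a14 : J 10 := s 1 4 (by norm_num)
abbrev a58 : J 10 := s 5 8 (by norm_num)
abbrev a78 : J 10 := s 7 8 (by norm_num)
abbrev a18 : J 10 := s 1 8 (by norm_num)
abbrev a9 : J 10 := s 9 10 (by norm_num)

def f0 : C2 →* J 10 := ofInv a12 (s_sq _ _ _)

theorem hc1 (a b : C2) : Commute (f0 a) (a14 * f0 b * a14) := by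
  have e : a14 * a12 * a14 = a34 := s_conj (by norm_num) (by norm_num) (by norm_num) (by norm_num)
  have hs : a14 * a14 = 1 := s_sq _ _ _
  change Commute (if a = 1 then 1 else a12) (a14 * (if b = 1 then 1 else a12) * a14)
  by_cases ha : a = 1
  · rw [if_pos ha]; exact Commute.one_left _
  · by_cases hb : b = 1
    · rw [if_pos hb, mul_one, hs]; exact Commute.one_right _
    · rw [if_neg ha, if_neg hb, e]
      exact s_comm _ _ (by norm_num)

def f1 : Wr C2 →* J 10 := wrLift f0 a14 (s_sq _ _ _) hc1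

theorem f0_mem (a : C2) {S : Subgroup (J 10)} (h : a12 ∈ S) : f0 a ∈ S := by
  change (if a = 1 then 1 else a12) ∈ S
  split_ifs
  · exact S.one_mem
  · exact h

theorem f1_mem (w : Wr C2) {S : Subgroup (J 10)} (h : a12 ∈ S) (h' : a14 ∈ S) : f1 w ∈ S := by
  change f0 w.a * (a14 * f0 w.b * a14) * (if w.e then a14 else 1) ∈ S
  refine S.mul_mem (S.mul_mem (f0_mem _ h) (S.mul_mem (S.mul_mem h' (f0_mem _ h)) h')) ?_
  split_ifs
  · exact h'
  · exact S.one_mem

theorem hc2 (a b : Wr C2) : Commute (f1 a) (a18 * f1 b * a18) := by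
  have e1 : a18 * a12 * a18 = a78 := s_conj (by norm_num) (by norm_num) (by norm_num) (by norm_num)
  have e2 : a18 * a14 * a18 = a58 := s_conj (by norm_num) (by norm_num) (by norm_num) (by norm_num)
  apply comm_closure (S := {a12, a14}) (T := {a78, a58})
  · rintro x (rfl | hx) y (rfl | hy)
    · exact s_comm _ _ (by norm_num)
    · rw [Set.mem_singleton_iff] at hy; subst hy; exact s_comm _ _ (by norm_num)
    · rw [Set.mem_singleton_iff] at hx; subst hx; exact s_comm _ _ (by norm_num)
    · rw [Set.mem_singleton_iff] at hx hy; subst hx hy; exact s_comm _ _ (by norm_num)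
  · exact f1_mem a (Subgroup.subset_closure (by simp)) (Subgroup.subset_closure (by simp))
  · apply conj_closure (S := {a12, a14}) (s_sq _ _ _)
    · rintro x (rfl | hx)
      · rw [e1]; exact Subgroup.subset_closure (by simp)
      · rw [Set.mem_singleton_iff] at hx; subst hx
        rw [e2]; exact Subgroup.subset_closure (by simp)
    · exact f1_mem b (Subgroup.subset_closure (by simp)) (Subgroup.subset_closure (by simp))

def f2 : Wr (Wr C2) →* J 10 := wrLift f1 a18 (s_sq _ _ _) hc2

theorem f2_mem (w : Wr (Wr C2)) {S : Subgroup (J 10)} (h : a12 ∈ S) (h' : a14 ∈ S)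
    (h'' : a18 ∈ S) : f2 w ∈ S := by
  change f1 w.a * (a18 * f1 w.b * a18) * (if w.e then a18 else 1) ∈ S
  refine S.mul_mem (S.mul_mem (f1_mem _ h h') (S.mul_mem (S.mul_mem h'' (f1_mem _ h h')) h'')) ?_
  split_ifs
  · exact h''
  · exact S.one_mem

def g9 : C2 →* J 10 := ofInv a9 (s_sq _ _ _)

theorem hc3 (w : Wr (Wr C2)) (c : C2) : Commute (f2 w) (g9 c) := by
  have h1 : f2 w ∈ Subgroup.centralizer {a9} := by
    apply f2_mem <;> rw [Subgroup.mem_centralizer_iff] <;> rintro _ rfl
    · exact (s_comm _ _ (by norm_num) : Commute a9 a12).eq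
    · exact (s_comm _ _ (by norm_num) : Commute a9 a14).eq
    · exact (s_comm _ _ (by norm_num) : Commute a9 a18).eq
  have h2 : Commute (f2 w) a9 := ((Subgroup.mem_centralizer_iff.1 h1) a9 rfl).symm
  change Commute (f2 w) (if c = 1 then 1 else a9)
  split_ifs
  · exact Commute.one_right _
  · exact h2

/-- the group of order 256 -/
abbrev GG : Type := Wr (Wr C2) × C2

/-- the embedding -/
def emb : GG →* J 10 := MonoidHom.noncommCoprod f2 g9 hc3

def p0 (t : Equiv.Perm ℕ) (e : C2) : Equiv.Perm ℕ := if e = 1 then 1 else t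
def p1 (w : Wr C2) : Equiv.Perm ℕ :=
  p0 (rev 1 2) w.a * (rev 1 4 * p0 (rev 1 2) w.b * rev 1 4) * (if w.e then rev 1 4 else 1)
def p2 (w : Wr (Wr C2)) : Equiv.Perm ℕ :=
  p1 w.a * (rev 1 8 * p1 w.b * rev 1 8) * (if w.e then rev 1 8 else 1)
def pf (g : GG) : Equiv.Perm ℕ := p2 g.1 * p0 (rev 9 10) g.2

theorem toPerm_f0 (e : C2) : toPerm 10 (f0 e) = p0 (rev 1 2) e := by
  change toPerm 10 (if e = 1 then 1 else a12) = if e = 1 then 1 else rev 1 2
  split_ifs
  · exact map_one _
  · exact toPerm_s _ _ _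

theorem toPerm_f1 (w : Wr C2) : toPerm 10 (f1 w) = p1 w := by
  change toPerm 10 (f0 w.a * (a14 * f0 w.b * a14) * (if w.e then a14 else 1)) = _
  rw [map_mul, map_mul, map_mul, map_mul, toPerm_f0, toPerm_f0, apply_ite (toPerm 10), map_one,
    toPerm_s]
  rfl

theorem toPerm_f2 (w : Wr (Wr C2)) : toPerm 10 (f2 w) = p2 w := by
  change toPerm 10 (f1 w.a * (a18 * f1 w.b * a18) * (if w.e then a18 else 1)) = _
  rw [map_mul, map_mul, map_mul, map_mul, toPerm_f1, toPerm_f1, apply_ite (toPerm 10), map_one,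
    toPerm_s]
  rfl

theorem toPerm_emb (g : GG) : toPerm 10 (emb g) = pf g := by
  change toPerm 10 (f2 g.1 * (if g.2 = 1 then 1 else a9)) = _
  rw [map_mul, toPerm_f2, apply_ite (toPerm 10), map_one, toPerm_s]
  rfl

set_option maxRecDepth 100000 in
theorem dec_pf : ∀ g : GG, (∀ i ∈ List.range 11, pf g i = i) → g = 1 := by
  decide +kernel

theorem emb_inj : Function.Injective emb := by
  rw [injective_iff_map_eq_one]
  intro g hg
  apply dec_pf
  intro i _
  rw [← toPerm_emb, hg, map_one]
  rfl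

theorem card_GG : Nat.card GG = 256 := by
  rw [Nat.card_prod, Nat.card_eq_fintype_card, Nat.card_eq_fintype_card, Wr.card_eq, Wr.card_eq]
  rfl

/-! ### the orders of the groups `W` -/

theorem card_C2 : Nat.card C2 = 2 := by
  rw [Nat.card_eq_fintype_card]
  rfl

theorem finite_W : ∀ l : List ℕ, Finite (W l) := by
  intro l
  induction l with
  | nil => exact inferInstanceAs (Finite C2)
  | cons r l ih =>
    have : Finite (Fin r → W l) := Pi.finite
    have h : Finite ((Fin r → W l) × C2) := inferInstance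
    exact Finite.of_equiv _ (SemidirectProduct.equivProd (φ := revHom (W l) r)).symm

theorem card_W_cons (r : ℕ) (l : List ℕ) : Nat.card (W (r :: l)) = Nat.card (W l) ^ r * 2 := by
  have h1 : Nat.card (W (r :: l)) = Nat.card ((Fin r → W l) × C2) :=
    Nat.card_congr (SemidirectProduct.equivProd (φ := revHom (W l) r))
  rw [h1, Nat.card_prod, card_C2, Nat.card_pi, Finset.prod_const, Finset.card_univ,
    Fintype.card_fin]

theorem card_W_nil : Nat.card (W []) = 2 := card_C2

theorem card_W_le (l : List ℕ) (h2 : ∀ r ∈ l, 2 ≤ r) (hp : 2 * l.prod ≤ 10) :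
    Nat.card (W l) ≤ 128 := by
  match l, h2, hp with
  | [], _, _ => rw [card_W_nil]; norm_num
  | [r], h2, hp =>
    have h1 : r ≤ 5 := by
      simp at hp; omega
    rw [card_W_cons, card_W_nil]
    calc 2 ^ r * 2 ≤ 2 ^ 5 * 2 := Nat.mul_le_mul_right 2 (Nat.pow_le_pow_right (by norm_num) h1)
      _ ≤ 128 := by norm_num
  | [r, t], h2, hp =>
    have hr : 2 ≤ r := h2 r (by simp)
    have ht : 2 ≤ t := h2 t (by simp)
    have h1 : r * t ≤ 5 := by
      simp at hp; omega
    have hr' : r = 2 := by nlinarith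
    subst hr'
    have ht' : t = 2 := by omega
    subst ht'
    rw [card_W_cons, card_W_cons, card_W_nil]
    norm_num
  | r :: t :: u :: l, h2, hp =>
    exfalso
    have hr : 2 ≤ r := h2 r (by simp)
    have ht : 2 ≤ t := h2 t (by simp)
    have hu : 2 ≤ u := h2 u (by simp)
    have hl : 1 ≤ l.prod := by
      apply List.one_le_prod_of_one_le
      intro v hv
      exact (h2 v (by simp [hv])).trans' (by norm_num)
    have h1 : r * (t * (u * l.prod)) ≤ 5 := by
      simp only [List.prod_cons] at hp; omega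
    have h3 : 2 * (2 * (2 * 1)) ≤ r * (t * (u * l.prod)) :=
      Nat.mul_le_mul hr (Nat.mul_le_mul ht (Nat.mul_le_mul hu hl))
    omega

theorem no_emb (l : List ℕ) (h2 : ∀ r ∈ l, 2 ≤ r) (hp : 2 * l.prod ≤ 10) (f : GG →* W l) :
    ¬ Function.Injective f := by
  intro hf
  have : Finite (W l) := finite_W l
  have h1 := Nat.card_le_card_of_injective f hf
  rw [card_GG] at h1
  have := card_W_le l h2 hp
  omega

end Pool.Agent.X175.Cactus
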