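import Mathlib

set_option autoImplicit false

/-! # Cactus groups and reversal wreath products: the definitions -/

namespace Pool.Agent.X175.Cactus

/-- The index set of the generators `s_{p,q}`, `1 ≤ p < q ≤ n`. -/
abbrev Gen (n : ℕ) : Type := {x : ℕ × ℕ // 1 ≤ x.1 ∧ x.1 < x.2 ∧ x.2 ≤ n}

/-- The relators of the cactus group: `s_{p,q}²`; `s_{p,q} s_{m,r} = s_{m,r} s_{p,q}` for disjoint
intervals; `s_{p,q} s_{m,r} = s_{p+q-r,p+q-m} s_{p,q}` for `[m,r] ⊆ [p,q]`. -/
def rels (n : ℕ) : Set (FreeGroup (Gen n)) :=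
  {w | (∃ x : Gen n, w = FreeGroup.of x * FreeGroup.of x) ∨
    (∃ x y : Gen n, (x.1.2 < y.1.1 ∨ y.1.2 < x.1.1) ∧
      w = FreeGroup.of x * FreeGroup.of y * (FreeGroup.of y * FreeGroup.of x)⁻¹) ∨
    (∃ x y z : Gen n, x.1.1 ≤ y.1.1 ∧ y.1.2 ≤ x.1.2 ∧
      z.1 = (x.1.1 + x.1.2 - y.1.2, x.1.1 + x.1.2 - y.1.1) ∧
      w = FreeGroup.of x * FreeGroup.of y * (FreeGroup.of z * FreeGroup.of x)⁻¹)}

/-- The cactus group `J_n`. -/
abbrev J (n : ℕ) : Type := PresentedGroup (rels n)

/-- The group `ℤ/2`, written multiplicatively. -/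
abbrev C2 : Type := Multiplicative (ZMod 2)

/-- Reversing the order of the coordinates of `A^r`. -/
def revAut (A : Type) [Group A] (r : ℕ) : MulAut (Fin r → A) where
  toFun f i := f i.rev
  invFun f i := f i.rev
  left_inv f := by funext i; simp
  right_inv f := by funext i; simp
  map_mul' f g := rfl

/-- The action of `ℤ/2` on `A^r` by reversing the order of the coordinates. -/
def revHom (A : Type) [Group A] (r : ℕ) : C2 →* MulAut (Fin r → A) where
  toFun e := if e = 1 then 1 else revAut A r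
  map_one' := if_pos rfl
  map_mul' := by
    have h2 : revAut A r * revAut A r = 1 := by
      apply MulEquiv.ext
      intro f
      funext i
      change f i.rev.rev = f i
      rw [Fin.rev_rev]
    have key : ∀ e : C2, e = 1 ∨ e = Multiplicative.ofAdd 1 := by decide
    have h1 : (Multiplicative.ofAdd 1 : C2) ≠ 1 := by decide
    have h3 : (Multiplicative.ofAdd 1 * Multiplicative.ofAdd 1 : C2) = 1 := by decide
    intro a b
    rcases key a with rfl | rfl <;> rcases key b with rfl | rfl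
    · simp
    · rw [one_mul, if_pos rfl, if_neg h1, one_mul]
    · rw [mul_one, if_pos rfl, if_neg h1, mul_one]
    · rw [h3, if_pos rfl, if_neg h1, h2]

/-- `A ≀_r ℤ/2`, the semidirect product `A^r ⋊ ℤ/2` for the reversal of the coordinates. -/
abbrev RevWr (A : Type) [Group A] (r : ℕ) : Type := (Fin r → A) ⋊[revHom A r] C2

/-- The iterated groups: `W [] = ℤ/2` and `W (r :: l) = W l ≀_r ℤ/2`. In the notation of the problem
`W(r₁, …, r_s)` is `W [r_s, …, r₁]`. -/
def W : List ℕ → GrpCat.{0}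
  | [] => GrpCat.of C2
  | r :: l => GrpCat.of (RevWr (W l) r)

end Pool.Agent.X175.Cactus
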